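import Pool.Agent.Lib.MP_70b2ae_gt.KdGeo

/-! Coverings of a convex body by convex sets. -/

namespace Pool.Agent.Results.MP_70b2ae_gt.ConvexCover

universe u

/-- If closed convex sets `C i` cover a compact convex set `K`, then they contain homothetic copies
`t i + r i • K` of `K` whose ratios add up to at least `1`. -/
theorem result (E : Type u) [AddCommGroup E] [Module ℝ E] [TopologicalSpace E]
    [IsTopologicalAddGroup E] [ContinuousSMul ℝ E] [LocallyConvexSpace ℝ E] [T2Space E]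
    (K : Set E) (hK : IsCompact K) (hKv : Convex ℝ K) (hne : K.Nonempty)
    (n : ℕ) (C : Fin n → Set E) (hc : ∀ i, IsClosed (C i)) (hv : ∀ i, Convex ℝ (C i))
    (hC : ∀ i, (C i).Nonempty) (hcov : ∀ x ∈ K, ∃ i, x ∈ C i) :
    ∃ (r : Fin n → ℝ) (t : Fin n → E), (∀ i, 0 ≤ r i) ∧ 1 ≤ ∑ i, r i ∧
      ∀ i, ∀ x ∈ K, t i + r i • x ∈ C i :=
  Pool.Agent.Lib.MP_70b2ae_gt.Kd.kadets hK hKv hne hc hv hC hcov

/-- The case of planks `l i ≤ ⟪a i, x⟫ ≤ u i` in Euclidean space: the affine plank inequality.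
Here `p i` and `q i` are any points of `K` with `⟪a i, q i⟫ < ⟪a i, p i⟫`, for instance points on the
two supporting hyperplanes parallel to the plank. -/
theorem planks (d : ℕ) (K : Set (EuclideanSpace ℝ (Fin d))) (hK : IsCompact K) (hKv : Convex ℝ K)
    (hne : K.Nonempty) (n : ℕ) (a p q : Fin n → EuclideanSpace ℝ (Fin d)) (l u : Fin n → ℝ)
    (hlu : ∀ i, l i ≤ u i) (hp : ∀ i, p i ∈ K) (hq : ∀ i, q i ∈ K)
    (hpq : ∀ i, 0 < inner ℝ (a i) (p i - q i))
    (hcov : ∀ x ∈ K, ∃ i, l i ≤ inner ℝ (a i) x ∧ inner ℝ (a i) x ≤ u i) :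
    1 ≤ ∑ i, (u i - l i) / inner ℝ (a i) (p i - q i) := by
  obtain ⟨r, t, -, h2, h3⟩ := result _ K hK hKv hne n
    (fun i => innerSL ℝ (a i) ⁻¹' Set.Icc (l i) (u i))
    (fun i => isClosed_Icc.preimage (innerSL ℝ (a i)).continuous)
    (fun i => (convex_Icc _ _).linear_preimage (innerSL ℝ (a i)).toLinearMap)
    (fun i => ⟨(l i / inner ℝ (a i) (p i - q i)) • (p i - q i), by
      rw [Set.mem_preimage, map_smul, innerSL_apply_apply, smul_eq_mul,
        div_mul_cancel₀ _ (hpq i).ne']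
      exact ⟨le_rfl, hlu i⟩⟩) hcov
  refine h2.trans (Finset.sum_le_sum fun i _ => (le_div_iff₀ (hpq i)).2 ?_)
  have h4 := (h3 i _ (hp i)).2
  have h5 := (h3 i _ (hq i)).1
  simp only [map_add, map_smul, innerSL_apply_apply, smul_eq_mul] at h4 h5
  rw [inner_sub_right]
  linarith

/-- The question as posed: `m` hyperplanes cut a convex body `K`, and a translate of `K / (m + 1)`
lies in `K` and on one side of each hyperplane. -/
theorem slicing (d : ℕ) (K : Set (EuclideanSpace ℝ (Fin d))) (hK : IsCompact K) (hKv : Convex ℝ K)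
    (hi : (interior K).Nonempty) (m : ℕ) (a : Fin m → EuclideanSpace ℝ (Fin d)) (b : Fin m → ℝ)
    (ha : ∀ i, a i ≠ 0) : ∃ t : EuclideanSpace ℝ (Fin d),
      (∀ x ∈ K, t + (1 / ((m : ℝ) + 1)) • x ∈ K) ∧
      ∀ i, (∀ x ∈ K, inner ℝ (a i) (t + (1 / ((m : ℝ) + 1)) • x) ≤ b i) ∨
        ∀ x ∈ K, b i ≤ inner ℝ (a i) (t + (1 / ((m : ℝ) + 1)) • x) := by
  have hne : K.Nonempty := hi.mono interior_subset
  choose p hp q hq hlt hbd using fun i =>
    Pool.Agent.Lib.MP_70b2ae_gt.Bg.geo_width K hK hi (a i) (ha i)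
  have h0 : (0 : ℝ) < m + 1 := by positivity
  have hw : ∀ i, 0 < inner ℝ (a i) (p i - q i) := fun i => by
    rw [inner_sub_right]
    linarith [hlt i]
  let c : Fin m → ℝ := fun i => (m + 1) * b i - (inner ℝ (a i) (p i) + inner ℝ (a i) (q i)) / 2
  have key : ∃ z ∈ K, ∀ i, inner ℝ (a i) (p i - q i) / 2 ≤ |m * inner ℝ (a i) z - c i| := by
    by_contra hn
    push Not at hn
    obtain ⟨θ, h1, h2, h3⟩ := Pool.Agent.Lib.MP_70b2ae_gt.Bg.geo_theta
      ((fun z i => (m * inner ℝ (a i) z - c i) / (inner ℝ (a i) (p i - q i) / 2)) '' K)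
      (hK.image (by fun_prop)) (hne.image _) (by
        rintro _ ⟨z, hz, rfl⟩
        obtain ⟨i, hi⟩ := hn z hz
        exact ⟨i, by rwa [abs_div, abs_of_pos (half_pos (hw i)), div_lt_one (half_pos (hw i))]⟩)
    have hm : (0 : ℝ) < m := by
      obtain ⟨z, hz⟩ := hne
      exact_mod_cast (hn z hz).choose.pos
    have h4 := planks d K hK hKv hne m (fun i => (m : ℝ) • a i) p q
      (fun i => c i - θ * (inner ℝ (a i) (p i - q i) / 2))
      (fun i => c i + θ * (inner ℝ (a i) (p i - q i) / 2))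
      (fun i => by linarith [mul_pos h1 (half_pos (hw i))]) hp hq
      (fun i => by rw [real_inner_smul_left]; exact mul_pos hm (hw i)) fun z hz => by
        obtain ⟨i, hi⟩ := h3 _ ⟨z, hz, rfl⟩
        rw [abs_div, abs_of_pos (half_pos (hw i)), div_lt_iff₀ (half_pos (hw i)), abs_lt] at hi
        exact ⟨i, by rw [real_inner_smul_left]; linarith [hi.1],
          by rw [real_inner_smul_left]; linarith [hi.2]⟩
    rw [Finset.sum_congr rfl (g := fun _ => θ / m) fun i _ => by
      have := (hw i).ne'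
      rw [real_inner_smul_left]
      field_simp
      ring] at h4
    rw [Finset.sum_const, Finset.card_univ, Fintype.card_fin, nsmul_eq_mul,
      mul_div_cancel₀ _ hm.ne'] at h4
    linarith
  obtain ⟨z, hz, h⟩ := key
  have e : ∀ i x, inner ℝ (a i) ((m / ((m : ℝ) + 1)) • z + (1 / ((m : ℝ) + 1)) • x) =
      (m * inner ℝ (a i) z + inner ℝ (a i) x) / (m + 1) := fun i x => by
    rw [inner_add_right, real_inner_smul_right, real_inner_smul_right]
    ring
  refine ⟨(m / ((m : ℝ) + 1)) • z, fun x hx => hKv hz hx (by positivity) (by positivity)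
    (by field_simp), fun i => ?_⟩
  have h1 := h i
  simp only [e, div_le_iff₀ h0, le_div_iff₀ h0]
  simp only [c, inner_sub_right] at h1
  rcases le_abs.1 h1 with h2 | h2
  · exact Or.inr fun x hx => by linarith [(hbd i x hx).1]
  · exact Or.inl fun x hx => by linarith [(hbd i x hx).2]

end Pool.Agent.Results.MP_70b2ae_gt.ConvexCover
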